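import Pool.Agent.W_MP_49a69b_al.Main

/-!
# MP_49a69b_al, Q1: disproof of the function field analogue of Quillen's conjecture

For every finite field `F` with `q` elements and every prime `ℓ` (in particular for `ℓ ∣ q - 1`)
there is a closed point `v` of degree `4` of the projective line over `F` such that, for
`K = F(T)`, `S = {v}` and `n = 2`, the module `H^•(GL_n(O_{K,S}); F_ℓ)` over `F_ℓ[c₁, c₂]` is not
free. This is proved for the module structure given by `res ∘ δ` with an arbitrary graded ring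
homomorphism `δ : F_ℓ[c₁, c₂] → H^•(GL₂(K̄); F_ℓ)`, `deg c_i = 2 i`; the `δ` of the problem
(coming from Suslin rigidity) is one of them.

Idea: a class in `H¹(GL₂(O_{K,S}); F_ℓ)` coming from a loop of the quotient of the Bruhat-Tits
tree, through an edge whose stabilizer is the group `F_q^×` of scalars, is killed by every class
that vanishes on the scalars, hence by some nonzero `s c₁² + t c₂`.
-/

namespace Pool.Agent.Results.MP_49a69b_al.NotFree

open Pool.Agent.W_MP_49a69b_al Polynomial IsDedekindDomain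

/-- The discrete group `GL_n(O_{K,S})`. -/
def GLInt (n : ℕ) (K : Type) [Field K] (S : Set (ValuationSubring K)) : Type :=
  Matrix.GeneralLinearGroup (Fin n) (sIntegers K S)

instance (n : ℕ) (K : Type) [Field K] (S : Set (ValuationSubring K)) : Group (GLInt n K S) :=
  (inferInstance : Group (Matrix.GeneralLinearGroup (Fin n) (sIntegers K S)))

/-- The discrete group `GL_n(K̄)`. -/
def GLBar (n : ℕ) (K : Type) [Field K] : Type :=
  Matrix.GeneralLinearGroup (Fin n) (AlgebraicClosure K)

noncomputable instance (n : ℕ) (K : Type) [Field K] : Group (GLBar n K) :=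
  (inferInstance : Group (Matrix.GeneralLinearGroup (Fin n) (AlgebraicClosure K)))

/-- The inclusion `GL_n(O_{K,S}) → GL_n(K̄)`. -/
noncomputable def inclusion (n : ℕ) (K : Type) [Field K] (S : Set (ValuationSubring K)) :
    GLInt n K S →* GLBar n K :=
  Matrix.GeneralLinearGroup.map ((algebraMap K (AlgebraicClosure K)).comp (sIntegers K S).subtype)

/-- The graded ring homomorphisms `δ : F_ℓ[c₁, …, c_n] → H^•(GL_n(K̄); F_ℓ)`, where `c_i` has
degree `2 i`. (The variable `c_i` is `X (i - 1)`.) -/
structure GradedHom (n : ℕ) (K : Type) [Field K] (ℓ : ℕ) where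
  /-- the ring homomorphism -/
  δ : MvPolynomial (Fin n) (ZMod ℓ) →+* Cohomology (ZMod ℓ) (GLBar n K)
  graded : ∀ i : Fin n, δ (MvPolynomial.X i) ∈ degree (ZMod ℓ) (GLBar n K) (2 * (i + 1))

/-- The ring homomorphism `φ = res ∘ δ : F_ℓ[c₁, …, c_n] → H^•(GL_n(O_{K,S}); F_ℓ)`. -/
noncomputable def GradedHom.φ {n : ℕ} {K : Type} [Field K] {ℓ : ℕ} (d : GradedHom n K ℓ)
    (S : Set (ValuationSubring K)) :
    MvPolynomial (Fin n) (ZMod ℓ) →+* Cohomology (ZMod ℓ) (GLInt n K S) :=
  (res (inclusion n K S)).comp d.δ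

/-- `H` is a free `R`-module via the ring homomorphism `φ : R → H` (`r` acts as left
multiplication by `φ r`). -/
def FreeVia {R H : Type} [CommRing R] [Ring H] (φ : R →+* H) : Prop :=
  @Module.Free R H _ _ (Module.compHom H φ)

theorem result (F : Type) [Field F] [Finite F] (ℓ : ℕ) [Fact ℓ.Prime] :
    ∃ v : HeightOneSpectrum F[X], Module.finrank F (F[X] ⧸ v.asIdeal) = 4 ∧
      ∀ d : GradedHom 2 (RatFunc F) ℓ, ¬ FreeVia (d.φ {place v}) := by
  obtain ⟨r, u, w, hπ⟩ := exists_quartic F
  let v : HeightOneSpectrum F[X] := ⟨Ideal.span {quartic r u w},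
    (Ideal.span_singleton_prime hπ.ne_zero).mpr hπ.prime, by
      rw [Ne, Ideal.span_singleton_eq_bot]; exact hπ.ne_zero⟩
  refine ⟨v, ?_, fun d hfree => ?_⟩
  · show Module.finrank F (F[X] ⧸ Ideal.span {quartic r u w}) = 4
    rw [finrank_quotient_span_eq_natDegree, quartic_natDegree]
  · obtain ⟨x, hx0, -, hx⟩ := exists_class (v := v) hπ rfl (ZMod ℓ)
    let φ : MvPolynomial (Fin 2) (ZMod ℓ) →+* Cohomology (ZMod ℓ) (Gam v) := d.φ {place v}
    obtain ⟨f, hf0, hf⟩ := exists_relation (v := v) ℓ φ
      (fun i => res_degree (inclusion 2 (RatFunc F) {place v}) (d.graded i))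
    have h1 : φ f * x = 0 := hx _ hf
    let _ : Module (MvPolynomial (Fin 2) (ZMod ℓ)) (Cohomology (ZMod ℓ) (Gam v)) :=
      Module.compHom (Cohomology (ZMod ℓ) (Gam v)) φ
    have hfree' : Module.Free (MvPolynomial (Fin 2) (ZMod ℓ)) (Cohomology (ZMod ℓ) (Gam v)) := hfree
    have h2 : f • x = 0 := h1
    rcases smul_eq_zero.mp h2 with h3 | h3
    · exact hf0 h3
    · exact hx0 h3

end Pool.Agent.Results.MP_49a69b_al.NotFree
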